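import Pool.Agent.MP_ee8c61_ag.M3G.Spec

/-! Descent of a function with one simple pole to the field of definition. -/

set_option autoImplicit false

open WithZero Finsupp Module Polynomial
open scoped IntermediateField

namespace Pool.Agent.MP_ee8c61_ag.M3G

open Pool.Agent.MP_cce4c9_lc Pool.Agent.MP_cce4c9_lc.H87 M3C

namespace RDesc

section One

variable {k M : Type} [Field k] [IsAlgClosed k] [Field M] [Algebra k M]

theorem ex_pole (hM : IsFF k M) (hg : IsGenus k M 0) (w : Place k M) {a : M}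
    (ha : w.val a = exp (1 : ℤ)) :
    ∃ Y : M, (∀ v : Place k M, v ≠ w → v.val Y ≤ 1) ∧ w.val (Y - a) < 1 := by
  obtain ⟨y, h1, h2⟩ := (H7.gen k M hM).2 0 hg (single w 1) (single w 1)
    (Finsupp.single_nonneg.2 zero_le_one) (by simp) a fun v hv => by
      obtain rfl : v = w := by
        by_contra h
        exact hv (single_eq_of_ne h)
      rw [ha, single_eq_same]
  have h3 : w.val (y - a) ≤ 1 := by simpa using h2 w (by simp)
  refine ⟨y - algebraMap k M (w.ev (y - a)), fun v hv => ?_, ?_⟩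
  · refine (v.val.map_sub _ _).trans (max_le ?_ (v.const_le _))
    simpa [single_eq_of_ne hv] using h1 v
  · rw [sub_right_comm]
    exact (H51.res hM w).ev_spec h3

theorem uniq_pole (hM : IsFF k M) (w : Place k M) {a Y Z : M}
    (h1 : ∀ v : Place k M, v ≠ w → v.val Y ≤ 1) (h2 : w.val (Y - a) < 1)
    (h3 : ∀ v : Place k M, v ≠ w → v.val Z ≤ 1) (h4 : w.val (Z - a) < 1) : Y = Z := by
  have h5 : w.val (Y - Z) < 1 := by
    rw [← sub_sub_sub_cancel_right Y Z a]
    exact (w.val.map_sub _ _).trans_lt (max_lt h2 h4)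
  obtain ⟨c, hc⟩ := (H7.degF hM (Y - Z)).2.2 fun v => by
    by_cases h : v = w
    · exact h ▸ h5.le
    · exact (v.val.map_sub _ _).trans (max_le (h1 v h) (h3 v h))
  by_cases h0 : c = 0
  · rw [← sub_eq_zero, ← hc, h0, map_zero]
  · rw [← hc, w.triv c h0] at h5
    exact absurd h5 (lt_irrefl _)

theorem top_pole (hM : IsFF k M) (w : Place k M) {Y : M}
    (h1 : ∀ v : Place k M, v ≠ w → v.val Y ≤ 1) (h2 : w.val Y = exp (1 : ℤ)) :
    Y ∉ Set.range (algebraMap k M) ∧ k⟮Y⟯ = ⊤ := by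
  have hn : Y ∉ Set.range (algebraMap k M) := by
    rintro ⟨c, rfl⟩
    have := w.const_le c
    rw [h2, ← exp_zero, exp_le_exp] at this
    omega
  have h0 : Y ≠ 0 := H9.nc_ne hn
  have h3 := (H7.deg k M hM).1 _ (H9.nc_inv hn)
  have h4 : (dv k Y⁻¹ ⊔ 0 : Dv k M) = single w 1 := by
    ext v
    rw [Finsupp.sup_apply, H9.dv_ap' H7.deg hM, Place.ord_inv]
    by_cases h : v = w
    · subst h
      rw [v.ord_eq (n := -1) (by rw [h2, neg_neg]), single_eq_same]
      simp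
    · have := (v.val_le_one (v.val_ne h0)).1 (h1 v h)
      rw [single_eq_of_ne h]
      exact sup_eq_right.2 (by simpa using this)
  rw [h4, degree_single] at h3
  refine ⟨hn, (H9.adj_inv Y).trans ?_⟩
  exact IntermediateField.finrank_eq_one_iff_eq_top.1 (by exact_mod_cast h3.symm)

omit [IsAlgClosed k] in
theorem nrm {Y Z : M} {r s : k[X]} (hs : s ≠ 0) (h : aeval Y s * Z = aeval Y r) :
    ∃ q p : k[X], q.Monic ∧ q.natDegree = s.natDegree ∧ aeval Y q * Z = aeval Y p :=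
  ⟨s * C s.leadingCoeff⁻¹, r * C s.leadingCoeff⁻¹, monic_mul_leadingCoeff_inv hs,
    natDegree_mul_leadingCoeff_self_inv s, by rw [map_mul, map_mul, mul_right_comm, h]⟩

end One

section Two

variable {k₀ L k M : Type} [Field k₀] [Field L] [Field k] [Field M] [Algebra k₀ L] [Algebra k₀ k]
  [Algebra k₀ M] [Algebra L M] [Algebra k M] [IsScalarTower k₀ L M] [IsScalarTower k₀ k M]
  [Algebra.IsAlgebraic k₀ k]
  (g1 : ∀ x : M, (∀ τ : M ≃ₐ[L] M, τ x = x) → x ∈ Set.range (algebraMap L M))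
  (g2 : ∀ (τ : M ≃ₐ[L] M) (x : M),
    τ x ∈ Set.range (algebraMap k M) ↔ x ∈ Set.range (algebraMap k M))
  (hc : Cl k₀ L)

include g1 hc in
theorem fixc {c : k} (h : ∀ τ : M ≃ₐ[L] M, τ (algebraMap k M c) = algebraMap k M c) :
    c ∈ Set.range (algebraMap k₀ k) := by
  obtain ⟨l, hl⟩ := g1 _ h
  have h1 : IsAlgebraic k₀ (algebraMap L M l) :=
    hl ▸ (Algebra.IsAlgebraic.isAlgebraic c).algebraMap
  obtain ⟨c₀, rfl⟩ := hc l ((isAlgebraic_algebraMap_iff (algebraMap L M).injective).1 h1)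
  refine ⟨c₀, (algebraMap k M).injective ?_⟩
  rw [← hl, ← IsScalarTower.algebraMap_apply, ← IsScalarTower.algebraMap_apply]

omit [Algebra.IsAlgebraic k₀ k] in
include g2 in
theorem ex_sig (τ : M ≃ₐ[L] M) :
    ∃ σ : k →+* k, (∀ c, algebraMap k M (σ c) = τ (algebraMap k M c)) ∧
      ∀ (y : L) (p : k[X]),
        τ (aeval (algebraMap L M y) p) = aeval (algebraMap L M y) (p.map σ) := by
  choose s hs using fun c => (g2 τ (algebraMap k M c)).2 ⟨c, rfl⟩
  have hi := (algebraMap k M).injective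
  let σ : k →+* k :=
    { toFun := s
      map_one' := hi (by simp [hs])
      map_mul' a b := hi (by simp [hs])
      map_zero' := hi (by simp [hs])
      map_add' a b := hi (by simp [hs]) }
  refine ⟨σ, hs, fun y p => ?_⟩
  have e : (τ : M →+* M).comp (algebraMap k M) = (algebraMap k M).comp σ :=
    RingHom.ext fun c => (hs c).symm
  rw [aeval_def, aeval_def, eval₂_map, ← e]
  refine (hom_eval₂ p (algebraMap k M) (τ : M →+* M) _).trans ?_
  exact congrArg (eval₂ _ · p) (τ.commutes y)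

include g1 g2 hc in
theorem top_desc {y : L} (ht : Transcendental k (algebraMap L M y))
    (h : k⟮algebraMap L M y⟯ = ⊤) : k₀⟮y⟯ = ⊤ := by
  classical
  refine eq_top_iff.2 fun z _ => ?_
  have ex : ∃ n, ∃ q p : k[X], q.Monic ∧ q.natDegree = n ∧
      aeval (algebraMap L M y) q * algebraMap L M z = aeval (algebraMap L M y) p := by
    obtain ⟨r, s, e⟩ := (IntermediateField.mem_adjoin_simple_iff k (algebraMap L M z)).1
      (h ▸ IntermediateField.mem_top)
    by_cases h0 : aeval (algebraMap L M y) s = 0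
    · exact ⟨_, 1, 0, monic_one, rfl, by simp [e, h0]⟩
    · exact ⟨_, nrm (s := s) (r := r) (fun h1 => h0 (by rw [h1, map_zero]))
        (by rw [e, mul_div_cancel₀ _ h0])⟩
  obtain ⟨q, p, hq, hn, e⟩ := Nat.find_spec ex
  have key : ∀ τ : M ≃ₐ[L] M, ∃ σ : k →+* k,
      (∀ c, algebraMap k M (σ c) = τ (algebraMap k M c)) ∧ q.map σ = q ∧ p.map σ = p := by
    intro τ
    obtain ⟨σ, s1, s2⟩ := ex_sig g2 τ
    have e' := congrArg τ e
    rw [map_mul, τ.commutes, s2, s2] at e'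
    have h1 : q.map σ = q := by
      by_contra h1
      have h2 : q - q.map σ ≠ 0 := sub_ne_zero.2 (Ne.symm h1)
      refine Nat.find_min ex ?_ (nrm (r := p - p.map σ) h2 (by
        rw [map_sub, map_sub, sub_mul, e, e']))
      rw [← hn]
      exact natDegree_lt_natDegree h2 (degree_sub_lt (degree_map q σ).symm hq.ne_zero
        (hq.leadingCoeff.trans (hq.map σ).leadingCoeff.symm))
    refine ⟨σ, s1, h1, transcendental_iff_injective.1 ht ?_⟩
    rw [← e', h1, e]
  have lf : ∀ r : k[X], (∀ τ : M ≃ₐ[L] M, ∃ σ : k →+* k,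
      (∀ c, algebraMap k M (σ c) = τ (algebraMap k M c)) ∧ r.map σ = r) →
      ∃ r₀ : k₀[X], algebraMap L M (aeval y r₀) = aeval (algebraMap L M y) r := by
    intro r hr
    obtain ⟨r₀, rfl⟩ := (mem_lifts (f := algebraMap k₀ k) r).1
      ((lifts_iff_coeff_lifts r).2 fun n => fixc g1 hc fun τ => by
        obtain ⟨σ, s1, s2⟩ := hr τ
        rw [← s1, ← coeff_map, s2])
    exact ⟨r₀, by rw [aeval_map_algebraMap, aeval_algebraMap_apply]⟩
  obtain ⟨q₀, e1⟩ := lf q fun τ => (key τ).imp fun σ h => ⟨h.1, h.2.1⟩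
  obtain ⟨p₀, e2⟩ := lf p fun τ => (key τ).imp fun σ h => ⟨h.1, h.2.2⟩
  have h0 : aeval (algebraMap L M y) q ≠ 0 := fun h0 =>
    hq.ne_zero (transcendental_iff_injective.1 ht (h0.trans (map_zero _).symm))
  refine (IntermediateField.mem_adjoin_simple_iff k₀ z).2 ⟨p₀, q₀, (algebraMap L M).injective ?_⟩
  rw [map_div₀, e1, e2, ← e, mul_div_cancel_left₀ _ h0]

end Two

end RDesc

open RDesc in
theorem rowDesc : RowDesc := by
  intro hG k₀ L _ _ _ _ B hc hM hg dn hd hs w₀ hw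
  obtain ⟨g1, g2⟩ := hG k₀ L B
  let θ : (B.M ≃ₐ[L] B.M) → SA B.k B.M := fun τ => ⟨τ.toRingEquiv, g2 τ⟩
  have t1 : ∀ τ (w : Place B.k B.M) x, (θ τ • w).val (τ x) = w.val x := fun τ w x =>
    smul_val_apply (θ τ) w x
  have t2 : ∀ τ w, dn (θ τ • w) = dn w := fun τ w => by
    ext x
    rw [hd, hd, ← t1 τ w, τ.commutes]
  have t3 : ∀ (τ : B.M ≃ₐ[L] B.M) w, (∀ w', dn w' = dn w → w' = w) →
      ∀ x, w.val (τ x) = w.val x := fun τ w h x => by rw [← t1 τ w x, h _ (t2 τ w)]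
  obtain ⟨π, hπ⟩ := (dn w₀).exists_unif
  have ha : w₀.val (algebraMap L B.M π⁻¹) = exp (1 : ℤ) := by
    rw [← hd, map_inv₀, hπ, ← exp_neg, neg_neg]
  obtain ⟨Y, h1, h2⟩ := ex_pole hM hg w₀ ha
  obtain ⟨y, rfl⟩ := g1 Y fun τ => by
    refine uniq_pole hM w₀ (fun v hv => ?_) ?_ h1 h2
    · rw [← smul_inv_smul (θ τ) v, t1]
      refine h1 _ fun h => hv ?_
      rw [← smul_inv_smul (θ τ) v, h, hw _ (t2 τ w₀)]
    · rw [← τ.commutes, ← map_sub, t3 τ w₀ hw]
      exact h2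
  have h3 : w₀.val (algebraMap L B.M y) = exp (1 : ℤ) := by
    rw [← ha]
    refine Valuation.map_eq_of_sub_lt _ (h2.trans ?_)
    rw [ha, ← exp_zero, exp_lt_exp]
    exact one_pos
  obtain ⟨h4, h5⟩ := top_pole hM w₀ h1 h3
  refine ⟨y, Place.ord_eq _ (by rw [hd, h3, neg_neg]), fun P hP => ?_,
    top_desc g1 g2 hc (H14.transc h4) h5, fun w₁ hw₁ hne => ?_⟩
  · obtain ⟨w, rfl⟩ := hs P
    rw [hd]
    exact h1 w fun h => hP (congrArg dn h)
  · have h6 := (H51.res hM w₁).ev_spec (h1 w₁ hne)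
    obtain ⟨c, e⟩ := fixc (c := w₁.ev (algebraMap L B.M y)) g1 hc fun τ => by
      obtain ⟨σ, s1, -⟩ := ex_sig g2 τ
      have h7 := (t3 τ w₁ hw₁ _).trans_lt h6
      rw [map_sub, τ.commutes, ← s1] at h7
      rw [← s1, w₁.const_eq h7 h6]
    refine ⟨c, ?_⟩
    rw [hd, map_sub, ← IsScalarTower.algebraMap_apply, IsScalarTower.algebraMap_apply k₀ B.k, e]
    exact h6

end Pool.Agent.MP_ee8c61_ag.M3G
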