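import Pool.Agent.MP_ee8c61_ag.M3G.Spec

/-! Restriction of places along an extension of the constants. -/

set_option autoImplicit false

open WithZero

namespace Pool.Agent.MP_ee8c61_ag.M3G

open Pool.Agent.MP_cce4c9_lc.H87 Pool.Agent.MP_cce4c9_lc

namespace RDn

/-- A valuation ring extends to every overfield. -/
theorem exists_over {L M : Type} [Field L] [Field M] [Algebra L M] (O : ValuationSubring L) :
    ∃ A : ValuationSubring M, ∀ h : L, h ∈ O ↔ algebraMap L M h ∈ A := by
  obtain ⟨A, hA, hl⟩ := IsLocalRing.exists_factor_valuationRing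
    ((algebraMap L M).comp O.subtype)
  refine ⟨A, fun h => ⟨fun hh => hA ⟨h, hh⟩, fun hh => ?_⟩⟩
  by_contra hn
  have h0 : h ≠ 0 := fun e => hn (e ▸ O.zero_mem)
  have hi : h⁻¹ ∈ O := (O.mem_or_inv_mem h).resolve_left hn
  have hu : IsUnit (((algebraMap L M).comp O.subtype).codRestrict A.toSubring hA ⟨h⁻¹, hi⟩) := by
    refine isUnit_iff_exists_inv.2 ⟨⟨algebraMap L M h, hh⟩, Subtype.ext ?_⟩
    show algebraMap L M h⁻¹ * algebraMap L M h = 1
    rw [← map_mul, inv_mul_cancel₀ h0, map_one]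
  obtain ⟨y, hy⟩ := isUnit_iff_exists_inv.1 (hl.1 _ hu)
  have e : h⁻¹ * (y : L) = 1 := congrArg Subtype.val hy
  have e' : (y : L) = h := by
    rw [inv_mul_eq_iff_eq_mul₀ h0, mul_one] at e
    exact e
  exact hn (e' ▸ y.2)

/-- A valuation ring that contains a field contains the elements algebraic over it. -/
theorem alg_mem {k M : Type} [Field k] [Field M] [Algebra k M] (A : ValuationSubring M)
    (hA : ∀ c, algebraMap k M c ∈ A) {x : M} (hx : IsAlgebraic k x) : x ∈ A := by
  obtain ⟨p, hp, hpx⟩ := hx.isIntegral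
  have hi : IsIntegral A x := by
    refine ⟨p.map ((algebraMap k M).codRestrict A.toSubring hA), hp.map _, ?_⟩
    rw [Polynomial.eval₂_map]
    exact hpx
  obtain ⟨y, hy⟩ := IsIntegrallyClosed.algebraMap_eq_of_integral hi
  exact hy ▸ y.2

end RDn

theorem rowDn : RowDn := by
  intro hU k₀ L _ _ _ _ B hF
  let dn : Place B.k B.M → Place k₀ L := fun w =>
    { val := w.val.comap (algebraMap L B.M)
      surj := hU k₀ L B w
      triv := fun a ha => by
        show w.val (algebraMap L B.M (algebraMap k₀ L a)) = 1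
        rw [← IsScalarTower.algebraMap_apply, IsScalarTower.algebraMap_apply k₀ B.k B.M]
        exact w.triv _ ((map_ne_zero _).2 ha) }
  have hdn : ∀ w x, (dn w).val x = w.val (algebraMap L B.M x) := fun _ _ => rfl
  have hO : ∀ O : ValuationSubring L, (∀ c, algebraMap k₀ L c ∈ O) → O ≠ ⊤ →
      ∃ w, ∀ h, h ∈ O ↔ (dn w).val h ≤ 1 := by
    intro O hc hT
    obtain ⟨A, hA⟩ := RDn.exists_over (M := B.M) O
    have h1 : ∀ c : B.k, algebraMap B.k B.M c ∈ A := fun c => by
      refine RDn.alg_mem (k := k₀) A (fun a => ?_) ?_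
      · rw [IsScalarTower.algebraMap_apply k₀ L B.M]
        exact (hA _).1 (hc a)
      · exact (Algebra.IsAlgebraic.isAlgebraic c).algebraMap
    have h2 : A ≠ ⊤ := fun e => hT (top_unique fun h _ => (hA h).2 (e ▸ trivial))
    obtain ⟨w, hw⟩ := H7.dvr B.k B.M hF A h1 h2
    exact ⟨w, fun h => (hA h).trans (hw _)⟩
  refine ⟨dn, hdn, fun P => ?_, fun P => ?_, hO⟩
  · obtain ⟨w, hw⟩ := hO P.val.valuationSubring (fun c => P.const_le c) (fun e => by
      obtain ⟨x, hx⟩ := P.surj (exp 1)
      have h1 : x ∈ P.val.valuationSubring := e ▸ trivial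
      have h2 : P.val x ≤ 1 := h1
      rw [hx, ← exp_zero, exp_le_exp] at h2
      omega)
    exact ⟨w, (Place.eq_of_le P (dn w) fun x hx => (hw x).1 hx).symm⟩
  · obtain ⟨π, hπ⟩ := P.exists_unif
    refine (H7.degF hF (algebraMap L B.M π)).1.subset fun w hw => ?_
    have h1 : w.val (algebraMap L B.M π) = exp (-1 : ℤ) := by
      rw [← hdn, show dn w = P from hw, hπ]
    rw [Function.mem_support, w.ord_eq h1]
    exact one_ne_zero

end Pool.Agent.MP_ee8c61_ag.M3G
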