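import Pool.Agent.MP_ee8c61_ag.M3G.Spec

/-!
The extension of constants of a function field is a function field, and derivations extend.
-/

set_option autoImplicit false

open scoped IntermediateField

namespace Pool.Agent.MP_ee8c61_ag.M3G

open Pool.Agent.MP_cce4c9_lc.H87 M3C

namespace RFF

variable {k₀ L : Type} [Field k₀] [Field L] [Algebra k₀ L]

theorem alg (B : BC k₀ L) : Algebra.IsAlgebraic L B.M := by
  have h : ∀ x ∈ Set.range (algebraMap B.k B.M), IsIntegral L x := by
    rintro _ ⟨c, rfl⟩
    have h1 : IsIntegral k₀ c := (Algebra.IsAlgebraic.isAlgebraic c).isIntegral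
    have h2 : IsIntegral k₀ (algebraMap B.k B.M c) := h1.algebraMap
    exact h2.tower_top
  have h3 := IntermediateField.isAlgebraic_adjoin h
  refine ⟨fun x => ?_⟩
  have hx : x ∈ IntermediateField.adjoin L (Set.range (algebraMap B.k B.M)) := by
    rw [B.gen]; trivial
  exact IntermediateField.isAlgebraic_iff.1 (h3.isAlgebraic ⟨x, hx⟩)

theorem ext₀ [CharZero k₀] (B : BC k₀ L) (d : Derivation k₀ L L) :
    ∃ D : Derivation k₀ B.M B.M, ∀ x : L, D (algebraMap L B.M x) = algebraMap L B.M (d x) := by
  have := alg B
  have : CharZero L := charZero_of_injective_algebraMap (algebraMap k₀ L).injective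
  have : Algebra.FormallyEtale L B.M := Algebra.FormallyEtale.of_isSeparable L B.M
  let d' : Derivation k₀ L B.M := (Algebra.linearMap L B.M).compDer d
  let φ : Ω[L⁄k₀] →ₗ[L] B.M := d'.liftKaehlerDifferential
  let e := KaehlerDifferential.tensorKaehlerEquivOfFormallyEtale k₀ L B.M
  refine ⟨((φ.liftBaseChange B.M) ∘ₗ e.symm.toLinearMap).compDer
    (KaehlerDifferential.D k₀ B.M), fun x => ?_⟩
  have h := KaehlerDifferential.tensorKaehlerEquivOfFormallyEtale_symm_D_algebraMap k₀ L B.M x
  change φ.liftBaseChange B.M (e.symm (KaehlerDifferential.D k₀ B.M (algebraMap L B.M x))) = _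
  rw [h, LinearMap.liftBaseChange_tmul, one_smul]
  exact d'.liftKaehlerDifferential_comp_D x

theorem kill [CharZero k₀] (B : BC k₀ L) (D : Derivation k₀ B.M B.M) (c : B.k) :
    D (algebraMap B.k B.M c) = 0 := by
  have : Algebra.FormallyUnramified k₀ B.k := Algebra.FormallyUnramified.of_isSeparable k₀ B.k
  let D' : Derivation k₀ B.k B.M := D.compAlgebraMap B.k
  have h := D'.liftKaehlerDifferential_comp_D c
  rw [Subsingleton.elim (KaehlerDifferential.D k₀ B.k c) 0, map_zero] at h
  exact h.symm

theorem ext₁ [CharZero k₀] (B : BC k₀ L) (d : Derivation k₀ L L) :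
    ∃ D : Derivation B.k B.M B.M, ∀ x : L, D (algebraMap L B.M x) = algebraMap L B.M (d x) := by
  obtain ⟨D, hD⟩ := ext₀ B d
  let l : B.M →ₗ[B.k] B.M :=
    { toFun := D
      map_add' := fun x y => map_add D x y
      map_smul' := fun c x => by
        rw [Algebra.smul_def, D.leibniz, kill B D c, smul_zero, add_zero, RingHom.id_apply,
          Algebra.smul_def c, smul_eq_mul] }
  exact ⟨Derivation.mk' l fun x y => D.leibniz x y, hD⟩

theorem ff (B : BC k₀ L) (h : IsFF k₀ L) : IsFF B.k B.M := by
  classical
  obtain ⟨t, ht, hfin⟩ := h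
  refine ⟨algebraMap L B.M t, ?_, ?_⟩
  · have h1 : Transcendental k₀ (algebraMap L B.M t) :=
      (transcendental_algebraMap_iff (algebraMap L B.M).injective).2 ht
    exact h1.extendScalars B.k
  · set E : IntermediateField B.k B.M := B.k⟮algebraMap L B.M t⟯ with hE
    have hm : ∀ x : L, x ∈ k₀⟮t⟯ → algebraMap L B.M x ∈ E := by
      have hle : k₀⟮t⟯ ≤ (E.restrictScalars k₀).comap (IsScalarTower.toAlgHom k₀ L B.M) := by
        rw [IntermediateField.adjoin_simple_le_iff]
        exact IntermediateField.mem_adjoin_simple_self B.k (algebraMap L B.M t)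
      exact fun x hx => hle hx
    let f : k₀⟮t⟯ →+* E :=
      ((algebraMap L B.M).comp (algebraMap k₀⟮t⟯ L)).codRestrict E fun x => hm x.1 x.2
    have hint : ∀ z : L, IsIntegral E (algebraMap L B.M z) := fun z =>
      IsIntegral.map_of_comp_eq f (algebraMap L B.M) rfl (IsIntegral.of_finite k₀⟮t⟯ z)
    obtain ⟨s, hs⟩ := Module.Finite.fg_top (R := k₀⟮t⟯) (M := L)
    let S : Set B.M := algebraMap L B.M '' (s : Set L)
    have : Finite S := (s.finite_toSet.image _).to_subtype
    have hN : FiniteDimensional E (IntermediateField.adjoin E S) :=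
      IntermediateField.finiteDimensional_adjoin (by rintro _ ⟨z, -, rfl⟩; exact hint z)
    have hL : ∀ z : L, algebraMap L B.M z ∈ IntermediateField.adjoin E S := by
      intro z
      have hz : z ∈ Submodule.span k₀⟮t⟯ (s : Set L) := by rw [hs]; trivial
      induction hz using Submodule.span_induction with
      | mem x hx => exact IntermediateField.subset_adjoin E S ⟨x, hx, rfl⟩
      | zero => rw [map_zero]; exact zero_mem _
      | add x y _ _ hx hy => rw [map_add]; exact add_mem hx hy
      | smul a x _ hx =>
        rw [Algebra.smul_def, map_mul]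
        exact mul_mem ((IntermediateField.adjoin E S).algebraMap_mem (f a)) hx
    have htop : IntermediateField.adjoin E S = ⊤ := by
      let N : IntermediateField L B.M :=
        (IntermediateField.adjoin E S).toSubfield.toIntermediateField hL
      have hle : IntermediateField.adjoin L (Set.range (algebraMap B.k B.M)) ≤ N := by
        rw [IntermediateField.adjoin_le_iff]
        rintro _ ⟨c, rfl⟩
        exact (IntermediateField.adjoin E S).algebraMap_mem (algebraMap B.k E c)
      rw [B.gen] at hle
      exact eq_top_iff.2 fun x _ => hle (IntermediateField.mem_top (x := x))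
    rw [htop] at hN
    exact (IntermediateField.topEquiv (F := E) (E := B.M)).toLinearEquiv.finiteDimensional

end RFF

theorem rowFF : StmtFF := fun _ _ _ _ _ _ B h => ⟨RFF.ff B h, RFF.ext₁ B⟩

end Pool.Agent.MP_ee8c61_ag.M3G
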