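import Pool.Agent.MP_ee8c61_ag.M3G.Spec

/-!
Degrees of places and the canonical degree over a field that is not algebraically closed.
-/

set_option autoImplicit false

open WithZero Finsupp Module
open scoped IntermediateField

namespace Pool.Agent.MP_ee8c61_ag.M3G

open Pool.Agent.MP_cce4c9_lc.H87 Pool.Agent.MP_cce4c9_lc M3C

namespace RGF

theorem fin_of {A P : Type} {dn : A → P} (hs : Function.Surjective dn) {F : P → ℤ}
    (E : A →₀ ℤ) (hE : ∀ w, E w = F (dn w)) : (Function.support F).Finite := by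
  refine (E.support.finite_toSet.image dn).subset fun p hp => ?_
  obtain ⟨w, rfl⟩ := hs p
  exact ⟨w, by simpa [hE] using hp, rfl⟩

theorem sum_of {A P : Type} {dn : A → P} (hf : ∀ p, {w | dn w = p}.Finite) {F : P → ℤ}
    (E : A →₀ ℤ) (hE : ∀ w, E w = F (dn w)) (S : Finset P) (hS : ∀ p, p ∉ S → F p = 0) :
    ∑ p ∈ S, (({w | dn w = p}.ncard : ℕ) : ℤ) * F p = E.degree := by
  classical
  have h1 : E.degree = ∑ w ∈ S.biUnion fun p => (hf p).toFinset, E w := by
    rw [Finsupp.degree_apply]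
    refine Finset.sum_subset (fun w hw => ?_) fun w _ hw => by simpa using hw
    rw [Finset.mem_biUnion]
    refine ⟨dn w, ?_, by simp⟩
    by_contra h
    exact Finsupp.mem_support_iff.1 hw ((hE w).trans (hS _ h))
  rw [h1, Finset.sum_biUnion]
  · refine Finset.sum_congr rfl fun p _ => ?_
    rw [Set.ncard_eq_toFinset_card _ (hf p),
      Finset.sum_congr rfl (g := fun _ => F p) fun w hw => ?_]
    · simp
    · rw [hE w, (hf p).mem_toFinset.1 hw]
  · intro p _ q _ hpq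
    refine Finset.disjoint_left.2 fun w hw hw' => hpq ?_
    exact ((hf p).mem_toFinset.1 hw).symm.trans ((hf q).mem_toFinset.1 hw')

theorem uniq_of {A P : Type} {dn : A → P} {w₀ : A} (h : {w | dn w = dn w₀}.ncard = 1) (w : A)
    (hw : dn w = dn w₀) : w = w₀ := by
  obtain ⟨a, ha⟩ := Set.ncard_eq_one.1 h
  have h1 : w ∈ ({a} : Set A) := ha ▸ hw
  have h2 : w₀ ∈ ({a} : Set A) := ha ▸ (rfl : dn w₀ = dn w₀)
  exact h1.trans h2.symm

end RGF

theorem rowGF : RowGF := by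
  intro hEx hFF hDn hDesc hLoc hDual k₀ L _ _ _ _ hL hCl d hd
  obtain ⟨B⟩ := hEx k₀ L
  have : CharZero B.k := charZero_of_injective_algebraMap (algebraMap k₀ B.k).injective
  obtain ⟨hM, hD⟩ := hFF k₀ L B hL
  obtain ⟨D, hD⟩ := hD d
  have hD0 : D ≠ 0 := by
    rintro rfl
    refine hd (Derivation.ext fun x => (algebraMap L B.M).injective ?_)
    rw [← hD x]
    simp
  obtain ⟨g, hg⟩ := H7.genus hM
  obtain ⟨dn, hv, hs, hf, hpl⟩ := hDn k₀ L B hM
  have hloc := hLoc B.k B.M hM D hD0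
  obtain ⟨hc1, hc2, -⟩ := hDual B.k B.M hM D hD0 g hg
  have ho : ∀ w x, (dn w).ord x = w.ord (algebraMap L B.M x) := fun w x => by
    simp only [Place.ord, hv]
  have hcw : ∀ w, cw D w = cw d (dn w) := fun w => by
    have h1 := (hloc w).uni (algebraMap L B.M (unif (dn w))) (by rw [← hv, val_unif])
    rw [hD, ← hv] at h1
    have h2 : (dn w).ord (d (unif (dn w))) = -cw D w := (dn w).ord_eq (by rw [h1, neg_neg])
    show cw D w = -(dn w).ord (d (unif (dn w)))
    rw [h2, neg_neg]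
  have hdv : ∀ (φ : L) w, dv B.k (algebraMap L B.M φ) w = (dn w).ord φ := fun φ w => by
    rw [dv_apply (H7.degF hM _).1, ho]
  refine ⟨g, fun P => {w | dn w = P}.ncard, ?_, ?_, ?_, ?_, ?_, ?_, ?_, ?_, ?_⟩
  · intro P
    obtain ⟨w, hw⟩ := hs P
    exact (Set.ncard_pos (hf P)).2 ⟨w, hw⟩
  · intro φ
    exact RGF.fin_of hs (F := fun P => P.ord φ) _ (hdv φ)
  · intro φ S hS
    rw [RGF.sum_of hf (F := fun P => P.ord φ) _ (hdv φ) S hS]
    exact (H7.degF hM _).2.1
  · intro P π hπ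
    obtain ⟨w, rfl⟩ := hs P
    rw [hv, ← hD, ← hcw]
    exact (hloc w).uni _ (by rw [← hv, hπ])
  · intro P h hh
    obtain ⟨w, rfl⟩ := hs P
    rw [hv, ← hD, ← hcw]
    exact (hloc w).reg _ (by rw [← hv]; exact hh)
  · exact RGF.fin_of hs (can D) fun w => (hc1 w).trans (hcw w)
  · intro S hS
    rw [RGF.sum_of hf (can D) (fun w => (hc1 w).trans (hcw w)) S hS, hc2]
  · rintro rfl P₀ h₀
    obtain ⟨w₀, rfl⟩ := hs P₀
    obtain ⟨y, h1, h2, h3, h4⟩ := hDesc k₀ L B hCl hM hg dn hv hs w₀ (RGF.uniq_of h₀)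
    refine ⟨y, h1, h2, h3, fun P₁ h₁ hne => ?_⟩
    obtain ⟨w₁, rfl⟩ := hs P₁
    exact h4 w₁ (RGF.uniq_of h₁) fun h => hne (by rw [h])
  · intro O h1 h2
    obtain ⟨w, hw⟩ := hpl O h1 h2
    exact ⟨dn w, hw⟩

end Pool.Agent.MP_ee8c61_ag.M3G
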