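import Pool.Agent.MP_ee8c61_ag.M3G.Spec

/-!
Existence of the constant field extension, and Galois descent.
-/

set_option autoImplicit false

open scoped IntermediateField

namespace Pool.Agent.MP_ee8c61_ag.M3G

namespace RGal

section Ex

variable (k₀ L : Type) [Field k₀] [Field L] [Algebra k₀ L]

/-- The algebraic closure of the constants. -/
noncomputable abbrev kk : IntermediateField k₀ (AlgebraicClosure L) :=
  algebraicClosure k₀ (AlgebraicClosure L)

/-- The compositum. -/
noncomputable abbrev MM : IntermediateField L (AlgebraicClosure L) :=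
  IntermediateField.adjoin L (kk k₀ L : Set (AlgebraicClosure L))

/-- The inclusion of the new constants. -/
noncomputable def inc : kk k₀ L →+* MM k₀ L where
  toFun a := ⟨a.1, IntermediateField.subset_adjoin _ _ a.2⟩
  map_one' := rfl
  map_mul' _ _ := rfl
  map_zero' := rfl
  map_add' _ _ := rfl

end Ex

section Gal

variable {k₀ L : Type} [Field k₀] [Field L] [Algebra k₀ L] (B : BC k₀ L)

theorem mem_iff (x : B.M) : x ∈ Set.range (algebraMap B.k B.M) ↔ IsIntegral k₀ x := by
  constructor
  · rintro ⟨a, rfl⟩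
    exact (Algebra.IsIntegral.isIntegral (R := k₀) a).algebraMap
  · intro h
    exact h.mem_range_algebraMap_of_minpoly_splits (IsAlgClosed.splits _)

theorem gen_split (x : B.M) (hx : x ∈ Set.range (algebraMap B.k B.M)) :
    IsIntegral L x ∧ ((minpoly L x).map (algebraMap L B.M)).Splits := by
  have h := (mem_iff B x).1 hx
  refine ⟨h.tower_top, h.minpoly_splits_tower_top ?_⟩
  rw [IsScalarTower.algebraMap_eq k₀ B.k B.M, ← Polynomial.map_map]
  exact (IsAlgClosed.splits _).map _

theorem normal : Normal L B.M := by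
  rw [normal_iff]
  intro x
  have hx : x ∈ IntermediateField.adjoin L (Set.range (algebraMap B.k B.M)) := by
    rw [B.gen]
    trivial
  refine ⟨?_, IntermediateField.splits_of_mem_adjoin L B.M (gen_split B) hx⟩
  have h := IntermediateField.isAlgebraic_adjoin (K := L) fun y hy => (gen_split B y hy).1
  exact (Algebra.IsIntegral.isIntegral (R := L) (⟨x, hx⟩ :
    IntermediateField.adjoin L (Set.range (algebraMap B.k B.M)))).algebraMap

end Gal

end RGal

theorem rowEx : StmtEx := by
  intro k₀ L _ _ _
  let _ : Algebra (RGal.kk k₀ L) (RGal.MM k₀ L) := (RGal.inc k₀ L).toAlgebra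
  have t : IsScalarTower k₀ (RGal.kk k₀ L) (RGal.MM k₀ L) :=
    IsScalarTower.of_algebraMap_eq fun _ => rfl
  have c : IsAlgClosed (RGal.kk k₀ L) := IsAlgClosure.isAlgClosed k₀
  refine ⟨{ k := RGal.kk k₀ L, M := RGal.MM k₀ L, gen := ?_ }⟩
  apply IntermediateField.lift_injective
  rw [IntermediateField.lift_top, IntermediateField.lift_adjoin]
  refine congrArg (IntermediateField.adjoin L) ?_
  ext x
  constructor
  · rintro ⟨_, ⟨a, rfl⟩, rfl⟩
    exact a.2
  · intro hx
    exact ⟨_, ⟨⟨x, hx⟩, rfl⟩, rfl⟩

theorem rowGal : StmtGal := by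
  intro k₀ L _ _ _ _ B
  have := RGal.normal B
  have : CharZero L := charZero_of_injective_algebraMap (algebraMap k₀ L).injective
  have : IsGalois L B.M := {}
  refine ⟨fun x hx => (InfiniteGalois.mem_range_algebraMap_iff_fixed x).2 hx, fun τ x => ?_⟩
  rw [RGal.mem_iff, RGal.mem_iff]
  exact isIntegral_algEquiv (τ.restrictScalars k₀)

end Pool.Agent.MP_ee8c61_ag.M3G
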