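import Pool.Agent.MP_ee8c61_ag.M3G.Spec

/-!
An algebraic extension of the constants in characteristic zero is unramified.
-/

set_option autoImplicit false

open WithZero Polynomial
open scoped IntermediateField

namespace Pool.Agent.MP_ee8c61_ag.M3G

open Pool.Agent.MP_cce4c9_lc.H87

namespace RUnr

theorem vn {κ : Type} [Field κ] (μ g : κ[X]) (h : Squarefree μ) :
    ∃ y t : κ[X], g - g ^ 2 * y - μ * t = 0 := by
  classical
  obtain ⟨e, he⟩ := EuclideanDomain.gcd_dvd_right g μ
  obtain ⟨g', hg'⟩ := EuclideanDomain.gcd_dvd_left g μ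
  have hc : IsCoprime g e := by
    rw [← isRelPrime_iff_isCoprime]
    intro p hp hq
    have h1 : p ∣ μ := by rw [he]; exact hq.mul_left _
    have h2 : p ∣ EuclideanDomain.gcd g μ := EuclideanDomain.dvd_gcd hp h1
    exact h p (by rw [he]; exact mul_dvd_mul h2 hq)
  obtain ⟨a, b, hab⟩ := hc
  refine ⟨a, g' * b, ?_⟩
  generalize EuclideanDomain.gcd g μ = d at he hg'
  subst he
  subst hg'
  linear_combination (-(d * g')) * hab

section

variable {F M : Type} [Field F] [Field M] (v : Valuation F ℤᵐ⁰) (w : Valuation M ℤᵐ⁰)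
  (φ : F →+* M) (b : M)

/-- Evaluation of integral polynomials. -/
noncomputable def ev : v.valuationSubring[X] →+* M :=
  eval₂RingHom (φ.comp v.valuationSubring.subtype) b

theorem ev_C (c : v.valuationSubring) : ev v φ b (C c) = φ c := by
  simp [ev]

theorem ev_X : ev v φ b X = b := by
  simp [ev]

theorem ev_le (hv : ∀ x, w (φ x) = v x) (hb : w b ≤ 1) (g : v.valuationSubring[X]) :
    w (ev v φ b g) ≤ 1 := by
  induction g using Polynomial.induction_on' with
  | add p q hp hq =>
    rw [map_add]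
    exact (w.map_add _ _).trans (max_le hp hq)
  | monomial n a =>
    rw [← C_mul_X_pow_eq_monomial, map_mul, map_pow, ev_C, ev_X, map_mul, map_pow, hv]
    exact mul_le_one' a.2 (pow_le_one' hb n)

theorem fac (q : v.valuationSubring[X])
    (h : q.map (IsLocalRing.residue v.valuationSubring) = 0) :
    ∃ (c : v.valuationSubring) (r : v.valuationSubring[X]), v c < 1 ∧ q = C c * r := by
  by_cases h0 : q = 0
  · exact ⟨0, 0, by simp, by simp [h0]⟩
  obtain ⟨i, _, hi⟩ := Finset.exists_max_image q.support (fun i => v (q.coeff i : F))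
    (support_nonempty.2 h0)
  have hd : C (q.coeff i) ∣ q := by
    rw [C_dvd_iff_dvd_coeff]
    intro j
    by_cases hj : j ∈ q.support
    · exact (Valuation.valuationSubring.integers v).dvd_of_le (hi j hj)
    · rw [notMem_support_iff.1 hj]
      exact dvd_zero _
  obtain ⟨r, hr⟩ := hd
  refine ⟨q.coeff i, r, ?_, hr⟩
  have h1 := congrArg (fun p => p.coeff i) h
  simp only [coeff_map, coeff_zero, IsLocalRing.residue_eq_zero_iff] at h1
  exact (Valuation.mem_maximalIdeal_iff F v).1 h1

theorem step (hv : ∀ x, w (φ x) = v x) (hb : w b ≤ 1) (μ : v.valuationSubring[X])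
    (hs : μ.Separable) (h0 : ev v φ b μ = 0) (g : v.valuationSubring[X])
    (hg : w (ev v φ b g) < 1) :
    ∃ (c : F) (r : v.valuationSubring[X]), v c < 1 ∧
      w (ev v φ b g) = v c * w (ev v φ b r) := by
  obtain ⟨y, t, h⟩ := vn (μ.map (IsLocalRing.residue _)) (g.map (IsLocalRing.residue _))
    hs.map.squarefree
  obtain ⟨y, rfl⟩ := map_surjective _ (IsLocalRing.residue_surjective) y
  obtain ⟨t, rfl⟩ := map_surjective _ (IsLocalRing.residue_surjective) t
  obtain ⟨c, r, hc, hq⟩ := fac v (g - g ^ 2 * y - μ * t) (by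
    rw [Polynomial.map_sub, Polynomial.map_sub, Polynomial.map_mul, Polynomial.map_mul,
      Polynomial.map_pow]
    exact h)
  refine ⟨c, r, hc, ?_⟩
  have h1 := congrArg (ev v φ b) hq
  rw [map_sub, map_sub, map_mul, map_mul, map_mul, map_pow, h0, ev_C] at h1
  have h2 : ev v φ b g * (1 - ev v φ b g * ev v φ b y) = φ c * ev v φ b r := by
    linear_combination h1
  have h3 : w (1 - ev v φ b g * ev v φ b y) = 1 := by
    apply w.map_one_sub_of_lt
    rw [map_mul]
    exact lt_of_le_of_lt (mul_le_of_le_one_right' (ev_le v w φ b hv hb y)) hg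
  have h4 := congrArg w h2
  rwa [map_mul, map_mul, h3, mul_one, hv] at h4

theorem ind (hv : ∀ x, w (φ x) = v x) (hb : w b ≤ 1) (μ : v.valuationSubring[X])
    (hs : μ.Separable) (h0 : ev v φ b μ = 0) (n : ℕ) :
    ∀ g : v.valuationSubring[X], exp (-(n : ℤ)) ≤ w (ev v φ b g) →
      ∃ c : F, v c = w (ev v φ b g) := by
  induction n with
  | zero =>
    intro g hg
    refine ⟨1, ?_⟩
    rw [map_one]
    exact le_antisymm (by simpa using hg) (ev_le v w φ b hv hb g)
  | succ n ih =>
    intro g hg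
    rcases (ev_le v w φ b hv hb g).eq_or_lt with h1 | h1
    · exact ⟨1, by rw [map_one, h1]⟩
    obtain ⟨c, r, hc, hr⟩ := step v w φ b hv hb μ hs h0 g h1
    have hne : w (ev v φ b g) ≠ 0 := fun h => by
      rw [h] at hg
      exact absurd hg (not_le.2 exp_pos)
    rw [hr] at hne hg
    have a1 : v c ≠ 0 := left_ne_zero_of_mul hne
    have a2 : w (ev v φ b r) ≠ 0 := right_ne_zero_of_mul hne
    obtain ⟨c', hc'⟩ := ih r (by
      rw [← exp_log a1, ← exp_log a2, ← exp_add, exp_le_exp] at hg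
      rw [← exp_log a1, ← exp_zero, exp_lt_exp] at hc
      rw [← exp_log a2, exp_le_exp]
      push_cast at hg
      omega)
    exact ⟨c * c', by rw [map_mul, hc', hr]⟩

theorem int (hv : ∀ x, w (φ x) = v x) (hb : w b ≤ 1) (μ : v.valuationSubring[X])
    (hs : μ.Separable) (h0 : ev v φ b μ = 0) (g : v.valuationSubring[X]) :
    ∃ c : F, v c = w (ev v φ b g) := by
  by_cases h : w (ev v φ b g) = 0
  · exact ⟨0, by rw [map_zero, h]⟩
  refine ind v w φ b hv hb μ hs h0 (-log (w (ev v φ b g))).toNat g ?_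
  rw [← exp_log h, exp_le_exp, log_exp]
  omega

end

theorem den {F M : Type} [Field F] [Field M] [Algebra F M] (v : Valuation F ℤᵐ⁰) (b z : M)
    (hz : z ∈ Algebra.adjoin F {b}) :
    ∃ (d : v.valuationSubring) (r : v.valuationSubring[X]), d ≠ 0 ∧
      algebraMap F M d * z = ev v (algebraMap F M) b r := by
  induction hz using Algebra.adjoin_induction with
  | mem x hx =>
    obtain rfl : x = b := hx
    exact ⟨1, X, one_ne_zero, by simp [ev_X]⟩
  | algebraMap c =>
    obtain ⟨n, d, hd, rfl⟩ := IsFractionRing.div_surjective (A := v.valuationSubring) c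
    have hd0 : d ≠ 0 := nonZeroDivisors.ne_zero hd
    refine ⟨d, C n, hd0, ?_⟩
    have hd1 : (d : F) ≠ 0 := fun h => hd0 (Subtype.ext h)
    rw [ev_C, ← map_mul]
    exact congrArg _ (mul_div_cancel₀ _ hd1)
  | add x y _ _ hx hy =>
    obtain ⟨d, r, hd, h⟩ := hx
    obtain ⟨d', r', hd', h'⟩ := hy
    refine ⟨d * d', C d' * r + C d * r', mul_ne_zero hd hd', ?_⟩
    rw [map_add, map_mul, map_mul, ev_C, ev_C, ← h, ← h']
    push_cast
    ring
  | mul x y _ _ hx hy =>
    obtain ⟨d, r, hd, h⟩ := hx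
    obtain ⟨d', r', hd', h'⟩ := hy
    refine ⟨d * d', r * r', mul_ne_zero hd hd', ?_⟩
    rw [map_mul, ← h, ← h']
    push_cast
    ring

theorem simple {k₀ F M : Type} [Field k₀] [CharZero k₀] [Field F] [Field M] [Algebra k₀ F]
    [Algebra k₀ M] [Algebra F M] [IsScalarTower k₀ F M] (w : Valuation M ℤᵐ⁰) (b : M)
    (h₀ : ∀ c : k₀, w (algebraMap k₀ M c) ≤ 1) (hb : w b ≤ 1) (hi : IsIntegral k₀ b)
    (z : M) (hz : z ∈ F⟮b⟯) : ∃ c : F, w (algebraMap F M c) = w z := by
  have hF : IsAlgebraic F b := (hi.tower_top (A := F)).isAlgebraic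
  have hz' : z ∈ Algebra.adjoin F {b} := by
    rw [← IntermediateField.adjoin_simple_toSubalgebra_of_isAlgebraic hF]
    exact hz
  let v : Valuation F ℤᵐ⁰ := w.comap (algebraMap F M)
  have hv : ∀ x, w (algebraMap F M x) = v x := fun _ => rfl
  let ρ : k₀ →+* v.valuationSubring :=
    (algebraMap k₀ F).codRestrict v.valuationSubring fun c => by
      rw [Valuation.mem_valuationSubring_iff, ← hv, ← IsScalarTower.algebraMap_apply]
      exact h₀ c
  have hs : ((minpoly k₀ b).map ρ).Separable := (minpoly.irreducible hi).separable.map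
  have h0 : ev v (algebraMap F M) b ((minpoly k₀ b).map ρ) = 0 := by
    have h1 : ((algebraMap F M).comp v.valuationSubring.subtype).comp ρ = algebraMap k₀ M := by
      ext c
      exact (IsScalarTower.algebraMap_apply k₀ F M c).symm
    rw [ev, coe_eval₂RingHom, eval₂_map, h1]
    exact minpoly.aeval k₀ b
  obtain ⟨d, r, hd, h⟩ := den v b z hz'
  obtain ⟨c, hc⟩ := int v w (algebraMap F M) b hv hb _ hs h0 r
  have hd1 : (d : F) ≠ 0 := fun h => hd (Subtype.ext h)
  have hd2 : v (d : F) ≠ 0 := (Valuation.ne_zero_iff v).2 hd1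
  refine ⟨c / d, ?_⟩
  rw [hv, map_div₀, hc, ← h, map_mul, hv, mul_div_cancel_left₀ _ hd2]

end RUnr

theorem rowUnr : StmtUnr := by
  intro k₀ L _ _ _ _ B w y
  have hk : ∀ a : B.k, w.val (algebraMap B.k B.M a) ≤ 1 := fun a => by
    by_cases ha : a = 0
    · simp [ha]
    · exact (w.triv a ha).le
  obtain ⟨z, rfl⟩ := w.surj y
  have hz : z ∈ IntermediateField.adjoin L (Set.range (algebraMap B.k B.M)) := by
    rw [B.gen]
    exact IntermediateField.mem_top
  obtain ⟨T, hT, hzT⟩ := IntermediateField.exists_finset_of_mem_adjoin hz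
  refine IntermediateField.induction_on_adjoin_finset T
    (fun K => ∀ x ∈ K, ∃ c : L, w.val (algebraMap L B.M c) = w.val x) ?_ ?_ z hzT
  · intro x hx
    obtain ⟨c, rfl⟩ := IntermediateField.mem_bot.1 hx
    exact ⟨c, rfl⟩
  · intro K b hb ih x hx
    obtain ⟨a, rfl⟩ := hT hb
    have hi : IsIntegral k₀ (algebraMap B.k B.M a) :=
      (Algebra.IsAlgebraic.isAlgebraic (R := k₀) a).isIntegral.algebraMap
    have : IsScalarTower k₀ K B.M := IsScalarTower.of_algebraMap_eq fun _ => rfl
    obtain ⟨c, hc⟩ := RUnr.simple (k₀ := k₀) (F := K) w.val _ (fun c => by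
      rw [IsScalarTower.algebraMap_apply k₀ B.k B.M]
      exact hk _) (hk a) hi x hx
    obtain ⟨c', hc'⟩ := ih c c.2
    exact ⟨c', hc'.trans hc⟩

end Pool.Agent.MP_ee8c61_ag.M3G
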