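import Pool.Agent.MP_ee8c61_ag.M3C.Spec

/-!
Function fields of one variable over a field of characteristic zero that is not algebraically
closed: degrees of places, the canonical degree, rationality in genus zero.
-/

set_option autoImplicit false

open WithZero Finsupp Module
open scoped IntermediateField

namespace Pool.Agent.MP_ee8c61_ag.M3G

open Pool.Agent.MP_cce4c9_lc.H87 M3C

/-- Extension of the constants to an algebraic closure. -/
structure BC (k₀ L : Type) [Field k₀] [Field L] [Algebra k₀ L] where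
  /-- the new constants -/
  k : Type
  /-- the compositum -/
  M : Type
  [fk : Field k]
  [fM : Field M]
  [a₀ : Algebra k₀ k]
  [a₁ : Algebra k₀ M]
  [a₂ : Algebra L M]
  [a₃ : Algebra k M]
  [t₁ : IsScalarTower k₀ L M]
  [t₂ : IsScalarTower k₀ k M]
  [cl : IsAlgClosed k]
  [alg : Algebra.IsAlgebraic k₀ k]
  gen : IntermediateField.adjoin L (Set.range (algebraMap k M)) = ⊤

attribute [instance] BC.fk BC.fM BC.a₀ BC.a₁ BC.a₂ BC.a₃ BC.t₁ BC.t₂ BC.cl BC.alg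

/-- The constants are algebraically closed in the field. -/
def Cl (k₀ L : Type) [Field k₀] [Field L] [Algebra k₀ L] : Prop :=
  ∀ x : L, IsAlgebraic k₀ x → x ∈ Set.range (algebraMap k₀ L)

/-- The extension exists. -/
def StmtEx : Prop := ∀ (k₀ L : Type) [Field k₀] [Field L] [Algebra k₀ L], Nonempty (BC k₀ L)

/-- The extension is a function field, and derivations extend. -/
def StmtFF : Prop := ∀ (k₀ L : Type) [Field k₀] [CharZero k₀] [Field L] [Algebra k₀ L]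
  (B : BC k₀ L), IsFF k₀ L → IsFF B.k B.M ∧ ∀ d : Derivation k₀ L L,
    ∃ D : Derivation B.k B.M B.M, ∀ x : L, D (algebraMap L B.M x) = algebraMap L B.M (d x)

/-- Galois descent. -/
def StmtGal : Prop := ∀ (k₀ L : Type) [Field k₀] [CharZero k₀] [Field L] [Algebra k₀ L]
  (B : BC k₀ L), (∀ x : B.M, (∀ τ : B.M ≃ₐ[L] B.M, τ x = x) → x ∈ Set.range (algebraMap L B.M)) ∧
    ∀ (τ : B.M ≃ₐ[L] B.M) (x : B.M),
      τ x ∈ Set.range (algebraMap B.k B.M) ↔ x ∈ Set.range (algebraMap B.k B.M)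

/-- The extension is unramified. -/
def StmtUnr : Prop := ∀ (k₀ L : Type) [Field k₀] [CharZero k₀] [Field L] [Algebra k₀ L]
  (B : BC k₀ L) (w : Place B.k B.M),
    Function.Surjective fun x : L => w.val (algebraMap L B.M x)

/-- Restriction of places is onto with finite fibres. -/
def StmtDn : Prop := ∀ (k₀ L : Type) [Field k₀] [CharZero k₀] [Field L] [Algebra k₀ L]
  (B : BC k₀ L), IsFF B.k B.M → ∃ dn : Place B.k B.M → Place k₀ L,
    (∀ w x, (dn w).val x = w.val (algebraMap L B.M x)) ∧ Function.Surjective dn ∧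
      (∀ P, {w | dn w = P}.Finite) ∧
      ∀ O : ValuationSubring L, (∀ c, algebraMap k₀ L c ∈ O) → O ≠ ⊤ →
        ∃ w, ∀ h, h ∈ O ↔ (dn w).val h ≤ 1

/-- Descent of a function with one simple pole. -/
def StmtDesc : Prop := ∀ (k₀ L : Type) [Field k₀] [CharZero k₀] [Field L] [Algebra k₀ L]
  (B : BC k₀ L), Cl k₀ L → IsFF B.k B.M → IsGenus B.k B.M 0 →
    ∀ dn : Place B.k B.M → Place k₀ L, (∀ w x, (dn w).val x = w.val (algebraMap L B.M x)) →
      Function.Surjective dn → ∀ w₀, (∀ w, dn w = dn w₀ → w = w₀) →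
        ∃ y : L, (dn w₀).ord y = -1 ∧ (∀ P, P ≠ dn w₀ → P.val y ≤ 1) ∧ k₀⟮y⟯ = ⊤ ∧
          ∀ w₁, (∀ w, dn w = dn w₁ → w = w₁) → w₁ ≠ w₀ →
            ∃ c : k₀, (dn w₁).val (y - algebraMap k₀ L c) < 1

/-- Degrees `N` of the places and the genus `g`. -/
structure Deg {k₀ L : Type} [Field k₀] [Field L] [Algebra k₀ L] (d : Derivation k₀ L L) (g : ℕ)
    (N : Place k₀ L → ℕ) : Prop where
  pos : ∀ P, 0 < N P
  fin : ∀ φ : L, (Function.support fun P : Place k₀ L => P.ord φ).Finite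
  deg : ∀ (φ : L) (S : Finset (Place k₀ L)), (∀ P, P ∉ S → P.ord φ = 0) →
    ∑ P ∈ S, (N P : ℤ) * P.ord φ = 0
  uni : ∀ (P : Place k₀ L) (π : L), P.val π = exp (-1 : ℤ) → P.val (d π) = exp (cw d P)
  reg : ∀ (P : Place k₀ L) (h : L), P.val h ≤ 1 → P.val (d h) ≤ exp (cw d P)
  finc : (Function.support (cw d)).Finite
  can : ∀ S : Finset (Place k₀ L), (∀ P, P ∉ S → cw d P = 0) →
    ∑ P ∈ S, (N P : ℤ) * cw d P = 2 * (g : ℤ) - 2
  rat : g = 0 → ∀ P₀, N P₀ = 1 → ∃ y : L, P₀.ord y = -1 ∧ (∀ P, P ≠ P₀ → P.val y ≤ 1) ∧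
    k₀⟮y⟯ = ⊤ ∧ ∀ P₁, N P₁ = 1 → P₁ ≠ P₀ → ∃ c : k₀, P₁.val (y - algebraMap k₀ L c) < 1
  pl : ∀ O : ValuationSubring L, (∀ c, algebraMap k₀ L c ∈ O) → O ≠ ⊤ →
    ∃ P : Place k₀ L, ∀ h, h ∈ O ↔ P.val h ≤ 1

/-- The output of the block. -/
def StmtGF : Prop := ∀ (k₀ L : Type) [Field k₀] [CharZero k₀] [Field L] [Algebra k₀ L],
  IsFF k₀ L → Cl k₀ L → ∀ d : Derivation k₀ L L, d ≠ 0 → ∃ g N, Deg d g N

def RowDn : Prop := StmtUnr → StmtDn

def RowDesc : Prop := StmtGal → StmtDesc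

def RowGF : Prop := StmtEx → StmtFF → StmtDn → StmtDesc → StmtLoc → StmtDUAL → StmtGF

end Pool.Agent.MP_ee8c61_ag.M3G
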